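import Pool.Agent.Lib.MP_eeed5c_co_M.MA

/-!
# The quotient near the point `x` of the circle, with a bound by the number of holes

`hol s x` is the mean number of factors which are not used. `circle_close2` replaces
`circle_close`: the bound `B` of the difference of the logarithms is the number of holes.
-/

set_option autoImplicit false

namespace Pool.Agent.Lib.MP_eeed5c_coA

open Finset Pool.Agent.Lib.MP_eeed5c_co Pool.Agent.Lib.MP_eeed5c_coT Pool.Agent.Lib.MP_eeed5c_coM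

/-- The mean number of holes. -/
noncomputable def hol (s : Multiset ℝ) (x : ℝ) : ℝ := (s.map fun μ => 1 / (1 + μ * x)).sum

theorem Nn_cons {μ : ℝ} {s : Multiset ℝ} (hs : Nn (μ ::ₘ s)) : 0 ≤ μ ∧ Nn s :=
  ⟨hs μ (Multiset.mem_cons_self μ s), fun ν hν => hs ν (Multiset.mem_cons_of_mem hν)⟩

theorem hol_cons (μ : ℝ) (s : Multiset ℝ) (x : ℝ) :
    hol (μ ::ₘ s) x = 1 / (1 + μ * x) + hol s x := by
  unfold hol
  rw [Multiset.map_cons, Multiset.sum_cons]

theorem hol_zero (x : ℝ) : hol 0 x = 0 := by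
  unfold hol
  rw [Multiset.map_zero, Multiset.sum_zero]

theorem hol_eq {s : Multiset ℝ} (hs : Nn s) {x : ℝ} (hx : 0 ≤ x) :
    hol s x = Multiset.card s - mean s x := by
  induction s using Multiset.induction_on with
  | empty =>
    unfold hol mean
    simp
  | cons μ s ih =>
    obtain ⟨hμ, hs'⟩ := Nn_cons hs
    have h1 : 0 < 1 + μ * x := by positivity
    rw [hol_cons, ih hs']
    unfold mean
    rw [Multiset.map_cons, Multiset.sum_cons, Multiset.card_cons]
    push_cast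
    have h2 : 1 / (1 + μ * x) = 1 - μ * x / (1 + μ * x) := by
      field_simp
      ring
    rw [h2]
    ring

theorem hol_nonneg {s : Multiset ℝ} (hs : Nn s) {x : ℝ} (hx : 0 ≤ x) : 0 ≤ hol s x := by
  induction s using Multiset.induction_on with
  | empty => rw [hol_zero]
  | cons μ s ih =>
    obtain ⟨hμ, hs'⟩ := Nn_cons hs
    rw [hol_cons]
    have := ih hs'
    positivity

theorem hol_half {s : Multiset ℝ} (hs : Nn s) {x : ℝ} (hx : 0 < x) :
    hol s (x / 2) ≤ 2 * hol s x := by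
  induction s using Multiset.induction_on with
  | empty => rw [hol_zero, hol_zero, mul_zero]
  | cons μ s ih =>
    obtain ⟨hμ, hs'⟩ := Nn_cons hs
    rw [hol_cons, hol_cons]
    have h1 : 0 ≤ μ * x := by positivity
    have h2 : 1 / (1 + μ * (x / 2)) ≤ 2 * (1 / (1 + μ * x)) := by
      rw [mul_one_div, div_le_div_iff₀ (by positivity) (by positivity)]
      linarith
    linarith [ih hs']

theorem lg_cons (μ : ℝ) (s : Multiset ℝ) (z : ℂ) :
    lg (μ ::ₘ s) z = Complex.log (1 + μ * z) + lg s z := by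
  unfold lg
  rw [Multiset.map_cons, Multiset.sum_cons]

private theorem AA_one {μ x : ℝ} (hμ : 0 ≤ μ) (hx : 0 < x) {z : ℂ} (hz : x / 2 ≤ z.re)
    (hzx : ‖z - x‖ ≤ x / 2) :
    ‖(Complex.log (1 + μ * z) - Complex.log z) - (Complex.log (1 + μ * x) - Complex.log x)‖ ≤
      1 / (1 + μ * (x / 2)) := by
  have hS : Convex ℝ {w : ℂ | x / 2 ≤ w.re} := convex_halfSpace_re_ge (x / 2)
  have hpos : ∀ w ∈ {w : ℂ | x / 2 ≤ w.re}, 0 < w.re ∧ 0 < (1 + (μ : ℂ) * w).re ∧
      1 + μ * (x / 2) ≤ (1 + (μ : ℂ) * w).re := by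
    intro w hw
    have hw' : x / 2 ≤ w.re := hw
    have h1 : (1 + (μ : ℂ) * w).re = 1 + μ * w.re := by
      rw [Complex.add_re, Complex.one_re, Complex.re_ofReal_mul]
    have h2 : μ * (x / 2) ≤ μ * w.re := mul_le_mul_of_nonneg_left hw' hμ
    have h3 : 0 ≤ μ * (x / 2) := by positivity
    refine ⟨by linarith, by rw [h1]; linarith, by rw [h1]; linarith⟩
  have hd : ∀ w ∈ {w : ℂ | x / 2 ≤ w.re},
      HasDerivWithinAt (fun w : ℂ => Complex.log (1 + μ * w) - Complex.log w)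
        ((μ : ℂ) / (1 + μ * w) - 1 / w) {w : ℂ | x / 2 ≤ w.re} w := by
    intro w hw
    obtain ⟨h1, h2, _⟩ := hpos w hw
    have h3 : HasDerivAt (fun w : ℂ => 1 + (μ : ℂ) * w) (μ : ℂ) w := by
      have := ((hasDerivAt_id w).const_mul (μ : ℂ)).const_add (1 : ℂ)
      simpa using this
    have h4 := h3.clog (Or.inl h2)
    have h5 : HasDerivAt (fun w : ℂ => Complex.log w) (1 / w) w := by
      have := (hasDerivAt_id w).clog (Or.inl h1)
      simpa using this
    exact (h4.sub h5).hasDerivWithinAt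
  have hb : ∀ w ∈ {w : ℂ | x / 2 ≤ w.re},
      ‖(μ : ℂ) / (1 + μ * w) - 1 / w‖ ≤ 2 / x * (1 / (1 + μ * (x / 2))) := by
    intro w hw
    obtain ⟨h1, h2, h3⟩ := hpos w hw
    have hw0 : w ≠ 0 := by
      intro h
      rw [h] at h1
      simp at h1
    have hw1 : 1 + (μ : ℂ) * w ≠ 0 := by
      intro h
      rw [h] at h2
      simp at h2
    have e : (μ : ℂ) / (1 + μ * w) - 1 / w = -(1 / w * (1 / (1 + μ * w))) := by
      field_simp
      ring
    rw [e, norm_neg, norm_mul, norm_div, norm_div, norm_one]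
    have k1 : x / 2 ≤ ‖w‖ := le_trans hw ((le_abs_self _).trans (Complex.abs_re_le_norm w))
    have k2 : 1 + μ * (x / 2) ≤ ‖1 + (μ : ℂ) * w‖ :=
      h3.trans ((le_abs_self _).trans (Complex.abs_re_le_norm _))
    have k3 : 1 / ‖w‖ ≤ 2 / x := by
      rw [div_le_div_iff₀ (by linarith) hx]
      linarith
    have k4 : 1 / ‖1 + (μ : ℂ) * w‖ ≤ 1 / (1 + μ * (x / 2)) :=
      one_div_le_one_div_of_le (by positivity) k2
    exact mul_le_mul k3 k4 (by positivity) (by positivity)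
  have hxS : (x : ℂ) ∈ {w : ℂ | x / 2 ≤ w.re} := by
    change x / 2 ≤ (x : ℂ).re
    rw [Complex.ofReal_re]
    linarith
  have h := Convex.norm_image_sub_le_of_norm_hasDerivWithin_le hd hb hS hxS
    (show z ∈ {w : ℂ | x / 2 ≤ w.re} from hz)
  refine h.trans ?_
  have h1 : 2 / x * (1 / (1 + μ * (x / 2))) * ‖z - x‖ ≤
      2 / x * (1 / (1 + μ * (x / 2))) * (x / 2) :=
    mul_le_mul_of_nonneg_left hzx (by positivity)
  refine h1.trans (le_of_eq ?_)
  field_simp

theorem lg_diff {s : Multiset ℝ} (hs : Nn s) {x : ℝ} (hx : 0 < x) {z : ℂ} (hz : x / 2 ≤ z.re)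
    (hzx : ‖z - x‖ ≤ x / 2) :
    ‖(lg s z - Multiset.card s * Complex.log z) - (lg s x - Multiset.card s * Complex.log x)‖ ≤
      hol s (x / 2) := by
  induction s using Multiset.induction_on with
  | empty =>
    unfold lg
    rw [hol_zero]
    simp
  | cons μ s ih =>
    obtain ⟨hμ, hs'⟩ := Nn_cons hs
    rw [hol_cons, lg_cons, lg_cons, Multiset.card_cons]
    have h1 := AA_one hμ hx hz hzx
    have h2 := ih hs'
    have e : (Complex.log (1 + μ * z) + lg s z - ((Multiset.card s + 1 : ℕ) : ℂ) * Complex.log z) -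
        (Complex.log (1 + μ * x) + lg s x - ((Multiset.card s + 1 : ℕ) : ℂ) * Complex.log x) =
        ((Complex.log (1 + μ * z) - Complex.log z) - (Complex.log (1 + μ * x) - Complex.log x)) +
        ((lg s z - Multiset.card s * Complex.log z) -
          (lg s x - Multiset.card s * Complex.log x)) := by
      push_cast
      ring
    rw [e]
    exact (norm_add_le _ _).trans (add_le_add h1 h2)

/-- The difference of the two logarithms changes by at most the number of holes. -/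
theorem lg_lg_diff {sP sQ : Multiset ℝ} (hP : Nn sP) (hQ : Nn sQ)
    (hc : Multiset.card sP = Multiset.card sQ) {x : ℝ} (hx : 0 < x) {z : ℂ} (hz : x / 2 ≤ z.re)
    (hzx : ‖z - x‖ ≤ x / 2) :
    ‖(lg sP z - lg sQ z) - (lg sP x - lg sQ x)‖ ≤ 2 * hol sP x + 2 * hol sQ x := by
  have h1 := lg_diff hP hx hz hzx
  have h2 := lg_diff hQ hx hz hzx
  have e : (lg sP z - lg sQ z) - (lg sP x - lg sQ x) =
      ((lg sP z - Multiset.card sP * Complex.log z) -
        (lg sP x - Multiset.card sP * Complex.log x)) -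
      ((lg sQ z - Multiset.card sQ * Complex.log z) -
        (lg sQ x - Multiset.card sQ * Complex.log x)) := by
    rw [hc]
    ring
  rw [e]
  refine (norm_sub_le _ _).trans ?_
  linarith [hol_half hP hx, hol_half hQ hx]

theorem circle_close2 {sP sQ : Multiset ℝ} (hP : Nn sP) (hQ : Nn sQ)
    (hc : Multiset.card sP = Multiset.card sQ) {x δ B L : ℝ} (hx : 0 < x)
    (hδ : δ = Real.log ((rp sP).eval x) - Real.log ((rp sQ).eval x)) (hδ0 : 0 < δ)
    (hmono : ∀ y, 0 < y → y ≤ x →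
      0 ≤ Real.log ((rp sP).eval y) - Real.log ((rp sQ).eval y) ∧
      Real.log ((rp sP).eval y) - Real.log ((rp sQ).eval y) ≤ δ)
    (hB : 2 * hol sP x + 2 * hol sQ x ≤ B)
    (hL : L = Real.log (B / δ)) (hL1 : 1 ≤ L) {t : ℝ} (ht : 32 * L ^ 2 * |t| ≤ 1) :
    ‖lg sP (pt x t) - lg sQ (pt x t) - δ‖ ≤ 13 * L * √|t| * δ := by
  let H : ℂ → ℂ := fun z => lg sP ((x : ℂ) * (1 - z ^ 2 / 2)) - lg sQ ((x : ℂ) * (1 - z ^ 2 / 2)) - δ
  have hre : ∀ z ∈ Metric.ball (0 : ℂ) 1, x / 2 ≤ ((x : ℂ) * (1 - z ^ 2 / 2)).re ∧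
      ‖(x : ℂ) * (1 - z ^ 2 / 2) - x‖ ≤ x / 2 := by
    intro z hz
    rw [Metric.mem_ball, dist_zero_right] at hz
    have h1 : ‖z ^ 2‖ < 1 := by
      rw [norm_pow]
      exact pow_lt_one₀ (norm_nonneg z) hz two_ne_zero
    constructor
    · rw [Complex.re_ofReal_mul, Complex.sub_re, Complex.one_re]
      have h2 := Complex.re_le_norm (z ^ 2)
      have h3 : (z ^ 2 / 2).re = (z ^ 2).re / 2 := by
        simp
      rw [h3]
      have h4 : x * (1 / 2) ≤ x * (1 - (z ^ 2).re / 2) :=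
        mul_le_mul_of_nonneg_left (by linarith) hx.le
      linarith
    · have e : (x : ℂ) * (1 - z ^ 2 / 2) - x = -((x : ℂ) * (z ^ 2 / 2)) := by ring
      rw [e, norm_neg, norm_mul, Complex.norm_real, Real.norm_of_nonneg hx.le, norm_div]
      have h5 : ‖(2 : ℂ)‖ = 2 := by norm_num
      rw [h5]
      have h6 : x * (‖z ^ 2‖ / 2) ≤ x * (1 / 2) :=
        mul_le_mul_of_nonneg_left (by linarith) hx.le
      linarith
  have hdiff : DifferentiableOn ℂ H (Metric.ball 0 1) := by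
    intro z hz
    have hz' : 0 < ((x : ℂ) * (1 - z ^ 2 / 2)).re := by
      have := (hre z hz).1
      linarith
    have h1 : DifferentiableAt ℂ (fun z : ℂ => (x : ℂ) * (1 - z ^ 2 / 2)) z := by fun_prop
    have h2 : DifferentiableAt ℂ (fun z : ℂ => lg sP ((x : ℂ) * (1 - z ^ 2 / 2))) z :=
      DifferentiableAt.comp (g := lg sP) z (lg_differentiableAt hP hz') h1
    have h3 : DifferentiableAt ℂ (fun z : ℂ => lg sQ ((x : ℂ) * (1 - z ^ 2 / 2))) z :=
      DifferentiableAt.comp (g := lg sQ) z (lg_differentiableAt hQ hz') h1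
    exact ((h2.sub h3).sub_const _).differentiableWithinAt
  have hδx : ((δ : ℝ) : ℂ) = lg sP x - lg sQ x := by
    rw [lg_real hP hx, lg_real hQ hx, hδ]
    push_cast
    ring
  have hbd : ∀ z ∈ Metric.ball (0 : ℂ) 1, ‖H z‖ ≤ B := by
    intro z hz
    obtain ⟨h1, h2⟩ := hre z hz
    have h3 := lg_lg_diff hP hQ hc hx h1 h2
    rw [← hδx] at h3
    exact h3.trans hB
  have hval : ∀ t : ℝ, |t| < 1 → 0 < x * (1 - t ^ 2 / 2) ∧ x * (1 - t ^ 2 / 2) ≤ x ∧
      H t = ((Real.log ((rp sP).eval (x * (1 - t ^ 2 / 2))) -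
        Real.log ((rp sQ).eval (x * (1 - t ^ 2 / 2))) - δ : ℝ) : ℂ) := by
    intro t ht
    have h1 : t ^ 2 < 1 := by
      rw [← sq_abs]
      exact pow_lt_one₀ (abs_nonneg t) ht two_ne_zero
    have h2 : 0 < x * (1 - t ^ 2 / 2) := mul_pos hx (by linarith)
    refine ⟨h2, by nlinarith [sq_nonneg t], ?_⟩
    have h3 : (x : ℂ) * (1 - (t : ℂ) ^ 2 / 2) = ((x * (1 - t ^ 2 / 2) : ℝ) : ℂ) := by
      push_cast
      ring
    change lg sP ((x : ℂ) * (1 - (t : ℂ) ^ 2 / 2)) - lg sQ ((x : ℂ) * (1 - (t : ℂ) ^ 2 / 2)) - δ = _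
    rw [h3, lg_real hP h2, lg_real hQ h2]
    push_cast
    ring
  have hreal : ∀ t : ℝ, |t| < 1 → ‖H (t : ℂ)‖ ≤ δ := by
    intro t ht
    obtain ⟨h1, h2, h3⟩ := hval t ht
    obtain ⟨h4, h5⟩ := hmono _ h1 h2
    rw [h3, Complex.norm_real, Real.norm_eq_abs, abs_le]
    constructor <;> linarith
  have h0 : H 0 = 0 := by
    have h1 := (hval 0 (by rw [abs_zero]; exact one_pos)).2.2
    rw [Complex.ofReal_zero] at h1
    rw [h1]
    have h2 : x * (1 - (0 : ℝ) ^ 2 / 2) = x := by ring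
    rw [h2, ← hδ, sub_self, Complex.ofReal_zero]
  obtain ⟨z, hz⟩ := IsAlgClosed.exists_pow_nat_eq (2 * (1 - Complex.exp (t * Complex.I))) two_pos
  have hnz : ‖z‖ ^ 2 ≤ 2 * |t| := by
    rw [← norm_pow, hz, norm_mul]
    have h5 : ‖(2 : ℂ)‖ = 2 := by norm_num
    rw [h5]
    have h6 : ‖1 - Complex.exp (t * Complex.I)‖ ≤ |t| := by
      rw [norm_sub_rev, mul_comm]
      exact Real.norm_exp_I_mul_ofReal_sub_one_le
    linarith
  have hL0 : 0 ≤ L := zero_le_one.trans hL1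
  have hst : 0 ≤ √|t| := Real.sqrt_nonneg _
  have hsq : √|t| ^ 2 = |t| := Real.sq_sqrt (abs_nonneg t)
  have hnz' : 9 * ‖z‖ ≤ 13 * √|t| := by
    apply le_of_sq_le_sq _ (by positivity)
    rw [mul_pow, mul_pow, hsq]
    nlinarith [abs_nonneg t]
  have h4 : 4 * L * ‖z‖ ≤ 1 := by
    have h5 : (4 * L * ‖z‖) ^ 2 ≤ 1 := by
      have h6 : 16 * L ^ 2 * ‖z‖ ^ 2 ≤ 16 * L ^ 2 * (2 * |t|) :=
        mul_le_mul_of_nonneg_left hnz (by positivity)
      calc (4 * L * ‖z‖) ^ 2 = 16 * L ^ 2 * ‖z‖ ^ 2 := by ring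
        _ ≤ 16 * L ^ 2 * (2 * |t|) := h6
        _ = 32 * L ^ 2 * |t| := by ring
        _ ≤ 1 := ht
    exact (abs_le_one_iff_mul_self_le_one.2 (by rw [← sq]; exact h5) |> le_trans (le_abs_self _))
  have h5 := disc hdiff hδ0 hL hL1 hbd hreal h0 h4
  have h6 : H z = lg sP (pt x t) - lg sQ (pt x t) - δ := by
    change lg sP ((x : ℂ) * (1 - z ^ 2 / 2)) - lg sQ ((x : ℂ) * (1 - z ^ 2 / 2)) - δ = _
    have h7 : (x : ℂ) * (1 - z ^ 2 / 2) = pt x t := by
      rw [hz]
      unfold pt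
      ring
    rw [h7]
  rw [← h6]
  refine h5.trans ?_
  have h8 : 9 * L * ‖z‖ * δ = (9 * ‖z‖) * (L * δ) := by ring
  have h9 : 13 * L * √|t| * δ = (13 * √|t|) * (L * δ) := by ring
  rw [h8, h9]
  exact mul_le_mul_of_nonneg_right hnz' (by positivity)

end Pool.Agent.Lib.MP_eeed5c_coA
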