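import Pool.Agent.Lib.MP_eeed5c_co_A.AA

/-!
# The difference of the coefficients, from a bound near the real axis

Versions of `pointwise` and `coeff_diff` (library M) in which the estimate near the point `x` of the
circle is a hypothesis `hE`; the proofs are the same.
-/

set_option autoImplicit false

namespace Pool.Agent.Lib.MP_eeed5c_coA

open Finset Pool.Agent.Lib.MP_eeed5c_co Pool.Agent.Lib.MP_eeed5c_coT Pool.Agent.Lib.MP_eeed5c_coM

private theorem PW_sinh {δ : ℝ} (h : 0 < δ) : δ * Real.exp (-(δ / 2)) ≤ 1 - Real.exp (-δ) := by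
  have h1 : δ / 2 ≤ Real.sinh (δ / 2) := Real.self_le_sinh_iff.mpr (by linarith)
  rw [Real.sinh_eq] at h1
  have h2 : δ ≤ Real.exp (δ / 2) - Real.exp (-(δ / 2)) := by linarith
  have h3 := mul_le_mul_of_nonneg_right h2 (Real.exp_pos (-(δ / 2))).le
  have h4 : (Real.exp (δ / 2) - Real.exp (-(δ / 2))) * Real.exp (-(δ / 2)) = 1 - Real.exp (-δ) := by
    rw [sub_mul, ← Real.exp_add, ← Real.exp_add]
    have e1 : δ / 2 + -(δ / 2) = 0 := by ring
    have e2 : -(δ / 2) + -(δ / 2) = -δ := by ring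
    rw [e1, e2, Real.exp_zero]
  rw [h4] at h3
  exact h3

private theorem PW_exp (E : ℂ) : ‖1 - Complex.exp (-E)‖ ≤ ‖E‖ * Real.exp ‖E‖ := by
  have h := Complex.norm_exp_sub_sum_le_norm_mul_exp (-E) 1
  simp only [Finset.sum_range_one, pow_zero, Nat.factorial_zero, Nat.cast_one, div_one, pow_one,
    norm_neg] at h
  rw [norm_sub_rev]
  exact h

private theorem PW_re {x t : ℝ} (hx : 0 < x) (ht : |t| < Real.pi / 2) : 0 < (pt x t).re := by
  unfold pt
  rw [Complex.re_ofReal_mul, Complex.exp_ofReal_mul_I_re]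
  have h := abs_lt.mp ht
  exact mul_pos hx (Real.cos_pos_of_mem_Ioo ⟨h.1, h.2⟩)

theorem pointwise2 {sP sQ sT : Multiset ℝ} (hP : Nn sP) (hQ : Nn sQ) (hT : Nn sT) {x δ L : ℝ}
    (hx : 0 < x)
    (hδ0 : 0 < δ)
    (hmean : ∀ y, 0 < y → mean sQ y ≤ mean sP y)
    (hle : ∀ y, 0 < y → (rp sQ).eval y ≤ (rp sP).eval y)
    (hE : ∀ t : ℝ, 16 * L ^ 2 * |t| ≤ 1 →
      ‖lg sP (pt x t) - lg sQ (pt x t) - δ‖ ≤ 9 * L * √|t| * δ)
    (hL1 : 1 ≤ L) {t : ℝ} (ht : |t| ≤ Real.pi) :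
    ‖(Real.exp (-δ) : ℂ) * Polynomial.aeval (pt x t) (rp (sP + sT)) -
        Polynomial.aeval (pt x t) (rp (sQ + sT))‖ ≤
      (1 - Real.exp (-δ)) * ((rp (sP + sT)).eval x * (9 * L)) *
        (√|t| * Real.exp (-(var (sP + sT) x * t ^ 2 / 5))) +
      2 * (rp (sP + sT)).eval x *
        Real.exp (-(var (sP + sT) x * (1 / (324 * L ^ 2)) ^ 2 / 120)) := by
  have hV := var_nonneg (Nn_add hP hT) hx.le
  have hA0 : 0 < (rp (sP + sT)).eval x := lt_of_lt_of_le one_pos (one_le_rp (Nn_add hP hT) hx.le)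
  obtain ⟨V, hVe⟩ : ∃ V, V = var (sP + sT) x := ⟨_, rfl⟩
  obtain ⟨A, hAe⟩ : ∃ A, A = (rp (sP + sT)).eval x := ⟨_, rfl⟩
  obtain ⟨f, hf⟩ : ∃ f, f = Polynomial.aeval (pt x t) (rp (sP + sT)) := ⟨_, rfl⟩
  obtain ⟨g, hg⟩ : ∃ g, g = Polynomial.aeval (pt x t) (rp (sQ + sT)) := ⟨_, rfl⟩
  have hfn : ‖f‖ ≤ A * Real.exp (-(V * t ^ 2 / 5)) := by
    rw [hf, hAe, hVe]
    exact norm_pt_le' (Nn_add hP hT) hx.le ht
  rw [← hVe, ← hAe, ← hf, ← hg]
  rw [← hVe] at hV
  rw [← hAe] at hA0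
  have hLpos : 0 < L := by linarith
  have hδ1 : 0 ≤ 1 - Real.exp (-δ) := by
    have : Real.exp (-δ) ≤ 1 := Real.exp_le_one_iff.mpr (by linarith)
    linarith
  have hL2 : 0 < 324 * L ^ 2 := by positivity
  rcases le_or_gt |t| (1 / (324 * L ^ 2)) with hc | hc
  · -- near the axis
    have hc' : |t| * (324 * L ^ 2) ≤ 1 := by
      rwa [le_div_iff₀ hL2] at hc
    have h16 : 16 * L ^ 2 * |t| ≤ 1 := by
      have h0 : 0 ≤ L ^ 2 * |t| := by positivity
      linarith
    have hsm : |t| ≤ 1 / 324 := by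
      have hLL : 1 ≤ L ^ 2 := one_le_pow₀ hL1
      have h0 : |t| * 1 ≤ |t| * L ^ 2 := mul_le_mul_of_nonneg_left hLL (abs_nonneg t)
      linarith
    have hre : 0 < (pt x t).re := PW_re hx (by linarith [Real.pi_gt_three])
    have hE := hE t h16
    obtain ⟨E, hEe⟩ : ∃ E, E = lg sP (pt x t) - lg sQ (pt x t) - δ := ⟨_, rfl⟩
    rw [← hEe] at hE
    have hfe : f = Complex.exp (lg sP (pt x t)) * Polynomial.aeval (pt x t) (rp sT) := by
      rw [hf, rp_add, map_mul, exp_lg hP hre]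
    have hge : g = Complex.exp (lg sQ (pt x t)) * Polynomial.aeval (pt x t) (rp sT) := by
      rw [hg, rp_add, map_mul, exp_lg hQ hre]
    have hid : (Real.exp (-δ) : ℂ) * f - g = (Real.exp (-δ) : ℂ) * (f * (1 - Complex.exp (-E))) := by
      have e1 : Complex.exp (lg sQ (pt x t)) =
          (Real.exp (-δ) : ℂ) * (Complex.exp (lg sP (pt x t)) * Complex.exp (-E)) := by
        rw [Complex.ofReal_exp, ← Complex.exp_add, ← Complex.exp_add, hEe]
        congr 1
        push_cast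
        ring
      rw [hge, e1, hfe]
      ring
    have hsq : 9 * L * √|t| ≤ 1 / 2 := by
      have h1 : (9 * L * √|t|) ^ 2 ≤ (1 / 2) ^ 2 := by
        rw [mul_pow, mul_pow, Real.sq_sqrt (abs_nonneg t)]
        linarith
      exact le_of_sq_le_sq h1 (by norm_num)
    have hE2 : ‖E‖ ≤ δ / 2 := by
      have h1 := mul_le_mul_of_nonneg_right hsq hδ0.le
      linarith
    rw [hid, norm_mul, norm_mul, Complex.norm_real, Real.norm_of_nonneg (Real.exp_pos _).le]
    have hE3 : ‖1 - Complex.exp (-E)‖ ≤ 9 * L * √|t| * δ * Real.exp (δ / 2) := by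
      refine (PW_exp E).trans (mul_le_mul hE (Real.exp_le_exp.mpr hE2) (Real.exp_pos _).le ?_)
      positivity
    have h5 : Real.exp (-δ) * (‖f‖ * ‖1 - Complex.exp (-E)‖) ≤
        Real.exp (-δ) * ((A * Real.exp (-(V * t ^ 2 / 5))) * (9 * L * √|t| * δ * Real.exp (δ / 2))) := by
      apply mul_le_mul_of_nonneg_left _ (Real.exp_pos _).le
      exact mul_le_mul hfn hE3 (norm_nonneg _) (by positivity)
    have h6 : Real.exp (-δ) * ((A * Real.exp (-(V * t ^ 2 / 5))) * (9 * L * √|t| * δ * Real.exp (δ / 2))) =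
        (δ * Real.exp (-(δ / 2))) * (A * (9 * L) * (√|t| * Real.exp (-(V * t ^ 2 / 5)))) := by
      have e1 : Real.exp (-(δ / 2)) = Real.exp (-δ) * Real.exp (δ / 2) := by
        rw [← Real.exp_add]
        congr 1
        ring
      rw [e1]
      ring
    have h7 := mul_le_mul_of_nonneg_right (PW_sinh hδ0)
      (by positivity : 0 ≤ A * (9 * L) * (√|t| * Real.exp (-(V * t ^ 2 / 5))))
    have h8 : 0 ≤ 2 * A * Real.exp (-(V * (1 / (324 * L ^ 2)) ^ 2 / 120)) := by positivity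
    rw [h6] at h5
    linarith
  · -- far from the axis
    have ht0 : (1 / (324 * L ^ 2)) ^ 2 ≤ t ^ 2 := by
      rw [← sq_abs t]
      exact pow_le_pow_left₀ (by positivity) hc.le 2
    have hgn : ‖g‖ ≤ A * Real.exp (-(V * t ^ 2 / 120)) := by
      rw [hg, hAe, hVe]
      refine tail_Q (Nn_add hP hT) (Nn_add hQ hT) hx ?_ ?_ ht
      · intro y hy
        rw [mean_add, mean_add]
        have := hmean y hy
        linarith
      · intro y hy
        rw [rp_add, rp_add, Polynomial.eval_mul, Polynomial.eval_mul]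
        exact mul_le_mul_of_nonneg_right (hle y hy) (zero_le_one.trans (one_le_rp hT hy.le))
    have hVt : V * (1 / (324 * L ^ 2)) ^ 2 ≤ V * t ^ 2 := mul_le_mul_of_nonneg_left ht0 hV
    have hVt0 : 0 ≤ V * t ^ 2 := by positivity
    have k1 : Real.exp (-(V * t ^ 2 / 5)) ≤ Real.exp (-(V * (1 / (324 * L ^ 2)) ^ 2 / 120)) := by
      apply Real.exp_le_exp.mpr
      linarith
    have k2 : Real.exp (-(V * t ^ 2 / 120)) ≤ Real.exp (-(V * (1 / (324 * L ^ 2)) ^ 2 / 120)) := by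
      apply Real.exp_le_exp.mpr
      linarith
    have k3 : ‖(Real.exp (-δ) : ℂ) * f - g‖ ≤ ‖f‖ + ‖g‖ := by
      refine (norm_sub_le _ _).trans ?_
      rw [norm_mul, Complex.norm_real, Real.norm_of_nonneg (Real.exp_pos _).le]
      have h1 : Real.exp (-δ) ≤ 1 := Real.exp_le_one_iff.mpr (by linarith)
      have h2 := mul_le_mul_of_nonneg_right h1 (norm_nonneg f)
      linarith
    have k4 := mul_le_mul_of_nonneg_left k1 hA0.le
    have k5 := mul_le_mul_of_nonneg_left k2 hA0.le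
    have k6 : 0 ≤ (1 - Real.exp (-δ)) * (A * (9 * L)) * (√|t| * Real.exp (-(V * t ^ 2 / 5))) := by
      apply mul_nonneg (mul_nonneg hδ1 (by positivity)) (by positivity)
    linarith

theorem coeff_diff2 {sP sQ sT : Multiset ℝ} (hP : Nn sP) (hQ : Nn sQ) (hT : Nn sT)
    {x δ L S : ℝ} (hx : 0 < x)
    (hδ0 : 0 < δ)
    (hmean : ∀ y, 0 < y → mean sQ y ≤ mean sP y)
    (hle : ∀ y, 0 < y → (rp sQ).eval y ≤ (rp sP).eval y)
    (hE : ∀ t : ℝ, 16 * L ^ 2 * |t| ≤ 1 →
      ‖lg sP (pt x t) - lg sQ (pt x t) - δ‖ ≤ 9 * L * √|t| * δ)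
    (hL1 : 1 ≤ L) (hS : 0 < S) (hSV : S ^ 4 = var (sP + sT) x)
    (N : ℕ) :
    (1 - Real.exp (-δ)) * (2 * Real.pi * ((rp (sP + sT)).coeff N * x ^ N) -
        41 * (rp (sP + sT)).eval x * L / S ^ 3) -
      13 * (rp (sP + sT)).eval x *
        Real.exp (-(var (sP + sT) x * (1 / (324 * L ^ 2)) ^ 2 / 120)) ≤
    2 * Real.pi * (((rp (sP + sT)).coeff N - (rp (sQ + sT)).coeff N) * x ^ N) := by
  have hpi : -Real.pi ≤ Real.pi := by linarith [Real.pi_pos]
  have hPcont := continuous_aeval_pt (rp (sP + sT)) x N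
  have hQcont := continuous_aeval_pt (rp (sQ + sT)) x N
  have hPint := coeff_integral (rp (sP + sT)) hx N
  have hQint := coeff_integral (rp (sQ + sT)) hx N
  have hA0 : 0 < (rp (sP + sT)).eval x := lt_of_lt_of_le one_pos (one_le_rp (Nn_add hP hT) hx.le)
  have hδ1 : 0 ≤ 1 - Real.exp (-δ) := by
    have : Real.exp (-δ) ≤ 1 := Real.exp_le_one_iff.mpr (by linarith)
    linarith
  -- the integral of the difference
  have hdiff : ∫ t in (-Real.pi)..Real.pi,
      ((Real.exp (-δ) : ℂ) * (Polynomial.aeval (pt x t) (rp (sP + sT)) *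
          Complex.exp (-(N * t * Complex.I))) -
        Polynomial.aeval (pt x t) (rp (sQ + sT)) * Complex.exp (-(N * t * Complex.I))) =
      ((Real.exp (-δ) * (2 * Real.pi * ((rp (sP + sT)).coeff N * x ^ N)) -
        2 * Real.pi * ((rp (sQ + sT)).coeff N * x ^ N) : ℝ) : ℂ) := by
    rw [intervalIntegral.integral_sub, intervalIntegral.integral_const_mul, hPint, hQint]
    · push_cast
      ring
    · exact (continuous_const.mul hPcont).intervalIntegrable _ _
    · exact hQcont.intervalIntegrable _ _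
  -- the bound for the integrand
  have hexp : ∀ t : ℝ, ‖Complex.exp (-(N * t * Complex.I))‖ = 1 := by
    intro t
    have e1 : (-(N * t * Complex.I) : ℂ) = ((-(N * t) : ℝ) : ℂ) * Complex.I := by
      push_cast
      ring
    rw [e1, Complex.norm_exp_ofReal_mul_I]
  obtain ⟨K1, hK1⟩ : ∃ K1, K1 = (1 - Real.exp (-δ)) * ((rp (sP + sT)).eval x * (9 * L)) := ⟨_, rfl⟩
  obtain ⟨K2, hK2⟩ : ∃ K2, K2 = 2 * (rp (sP + sT)).eval x *
        Real.exp (-(var (sP + sT) x * (1 / (324 * L ^ 2)) ^ 2 / 120)) := ⟨_, rfl⟩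
  have hbd : ∀ t ∈ Set.Ioc (-Real.pi) Real.pi,
      ‖(Real.exp (-δ) : ℂ) * (Polynomial.aeval (pt x t) (rp (sP + sT)) *
          Complex.exp (-(N * t * Complex.I))) -
        Polynomial.aeval (pt x t) (rp (sQ + sT)) * Complex.exp (-(N * t * Complex.I))‖ ≤
      K1 * (√|t| * Real.exp (-(S ^ 4 * t ^ 2 / 5))) + K2 := by
    intro t ht
    have hta : |t| ≤ Real.pi := abs_le.mpr ⟨ht.1.le, ht.2⟩
    have h := pointwise2 hP hQ hT hx hδ0 hmean hle hE hL1 hta
    rw [hK1, hK2, hSV]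
    refine le_trans (le_of_eq ?_) h
    have e2 : (Real.exp (-δ) : ℂ) * (Polynomial.aeval (pt x t) (rp (sP + sT)) *
          Complex.exp (-(N * t * Complex.I))) -
        Polynomial.aeval (pt x t) (rp (sQ + sT)) * Complex.exp (-(N * t * Complex.I)) =
        ((Real.exp (-δ) : ℂ) * Polynomial.aeval (pt x t) (rp (sP + sT)) -
          Polynomial.aeval (pt x t) (rp (sQ + sT))) * Complex.exp (-(N * t * Complex.I)) := by
      ring
    rw [e2, norm_mul, hexp t, mul_one]
  have hGc : Continuous fun t : ℝ => √|t| * Real.exp (-(S ^ 4 * t ^ 2 / 5)) := by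
    fun_prop
  have hnorm := intervalIntegral.norm_integral_le_of_norm_le hpi
    (Filter.Eventually.of_forall hbd : ∀ᵐ t, t ∈ Set.Ioc (-Real.pi) Real.pi → _)
    (((continuous_const.mul hGc).add continuous_const).intervalIntegrable (-Real.pi) Real.pi)
  rw [hdiff, Complex.norm_real] at hnorm
  have hGint : ∫ t in (-Real.pi)..Real.pi, (K1 * (√|t| * Real.exp (-(S ^ 4 * t ^ 2 / 5))) + K2) =
      K1 * (∫ t in (-Real.pi)..Real.pi, √|t| * Real.exp (-(S ^ 4 * t ^ 2 / 5))) +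
        2 * Real.pi * K2 := by
    rw [intervalIntegral.integral_add, intervalIntegral.integral_const_mul,
      intervalIntegral.integral_const]
    · rw [smul_eq_mul]
      ring
    · exact (continuous_const.mul hGc).intervalIntegrable _ _
    · exact continuous_const.intervalIntegrable _ _
  rw [hGint] at hnorm
  have hg := gauss_sqrt hS
  have hK10 : 0 ≤ K1 := by
    rw [hK1]
    exact mul_nonneg hδ1 (by positivity)
  have hK20 : 0 ≤ K2 := by
    rw [hK2]
    positivity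
  have h1 := mul_le_mul_of_nonneg_left hg hK10
  have h2 : K1 * (9 / 2 / S ^ 3) ≤
      (1 - Real.exp (-δ)) * (41 * (rp (sP + sT)).eval x * L / S ^ 3) := by
    have e3 : K1 * (9 / 2 / S ^ 3) =
        (1 - Real.exp (-δ)) * (((81 / 2 : ℝ) * ((rp (sP + sT)).eval x * L)) / S ^ 3) := by
      rw [hK1]
      ring
    have e4 : (81 / 2 : ℝ) * ((rp (sP + sT)).eval x * L) ≤ 41 * (rp (sP + sT)).eval x * L := by
      have : 0 ≤ (rp (sP + sT)).eval x * L := by positivity
      linarith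
    rw [e3]
    apply mul_le_mul_of_nonneg_left _ hδ1
    exact div_le_div_of_nonneg_right e4 (by positivity)
  have h3 : 2 * Real.pi * K2 ≤ 13 * (rp (sP + sT)).eval x *
        Real.exp (-(var (sP + sT) x * (1 / (324 * L ^ 2)) ^ 2 / 120)) := by
    have e5 : 2 * Real.pi * K2 ≤ 13 / 2 * K2 := by
      apply mul_le_mul_of_nonneg_right _ hK20
      linarith [Real.pi_lt_d2]
    refine e5.trans (le_of_eq ?_)
    rw [hK2]
    ring
  have h4 := (abs_le.mp (hnorm : |_| ≤ _)).1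
  have h5 : 2 * Real.pi * (((rp (sP + sT)).coeff N - (rp (sQ + sT)).coeff N) * x ^ N) =
      (1 - Real.exp (-δ)) * (2 * Real.pi * ((rp (sP + sT)).coeff N * x ^ N)) +
      (Real.exp (-δ) * (2 * Real.pi * ((rp (sP + sT)).coeff N * x ^ N)) -
        2 * Real.pi * ((rp (sQ + sT)).coeff N * x ^ N)) := by
    ring
  rw [h5, mul_sub]
  linarith

end Pool.Agent.Lib.MP_eeed5c_coA
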