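import Pool.Agent.Lib.MP_eeed5c_co_A.AA

/-!
# The number of holes

`T_sq`: `(m+1) T (m+1) ≤ (t r - m)^2 T m`. `hol_P`: the mean number of holes of `q K_{r,r}` at the
saddle point of level `N`. `hol_Q`: holes of `Q` against holes of `P`.
-/

set_option autoImplicit false

namespace Pool.Agent.Lib.MP_eeed5c_coA

open Finset Pool.Agent.Lib.MP_eeed5c_co Pool.Agent.Lib.MP_eeed5c_coT Pool.Agent.Lib.MP_eeed5c_coM

private theorem AC_cd (r j : ℕ) : (Lp r).derivative.coeff j = ((r : ℝ) - j) ^ 2 * ell r j := by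
  rw [Polynomial.coeff_derivative, Lp_coeff, ← ell_succ]
  ring

private noncomputable def AC_A (r : ℕ) : Polynomial ℝ :=
  Polynomial.C (r : ℝ) * Lp r - Polynomial.X * (Lp r).derivative

private theorem AC_cA (r j : ℕ) : (AC_A r).coeff j = ((r : ℝ) - j) * ell r j := by
  unfold AC_A
  rw [Polynomial.coeff_sub, Polynomial.coeff_C_mul, Lp_coeff]
  rcases Nat.eq_zero_or_pos j with rfl | hj
  · rw [Polynomial.coeff_X_mul_zero]
    simp
  · obtain ⟨i, rfl⟩ : ∃ i, j = i + 1 := ⟨j - 1, by omega⟩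
    rw [Polynomial.coeff_X_mul, Polynomial.coeff_derivative, Lp_coeff]
    push_cast
    ring

private theorem AC_D (r s m : ℕ) : ((s : ℝ) + 1) * ((Lp r) ^ s * (Lp r).derivative).coeff m =
    ((m : ℝ) + 1) * T r (s + 1) (m + 1) := by
  have h := congrArg (fun P => Polynomial.coeff P m) (Polynomial.derivative_pow_succ (Lp r) s)
  rw [Polynomial.coeff_derivative, mul_assoc, Polynomial.coeff_C_mul] at h
  unfold T
  rw [← h]
  ring

private theorem AC_E (r s m : ℕ) : ((s : ℝ) + 1) * ((Lp r) ^ s * AC_A r).coeff m =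
    (((s : ℝ) + 1) * r - m) * T r (s + 1) m := by
  have e : (Lp r) ^ s * AC_A r = Polynomial.C (r : ℝ) * (Lp r) ^ (s + 1) -
      Polynomial.X * ((Lp r) ^ s * (Lp r).derivative) := by
    unfold AC_A
    ring
  rw [e, Polynomial.coeff_sub, Polynomial.coeff_C_mul]
  rcases Nat.eq_zero_or_pos m with rfl | hm
  · rw [Polynomial.coeff_X_mul_zero]
    unfold T
    push_cast
    ring
  · obtain ⟨i, rfl⟩ : ∃ i, m = i + 1 := ⟨m - 1, by omega⟩
    rw [Polynomial.coeff_X_mul, mul_sub, AC_D]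
    unfold T
    push_cast
    ring

/-- Every matching with `m` edges of `t K_{r,r}` has at most `(t r - m)^2` extensions. -/
theorem T_sq (r t m : ℕ) :
    ((m : ℝ) + 1) * T r t (m + 1) ≤ ((t : ℝ) * r - m) ^ 2 * T r t m := by
  rcases Nat.eq_zero_or_pos t with rfl | ht
  · rw [T_zero, if_neg (by omega), mul_zero]
    exact mul_nonneg (sq_nonneg _) (T_nonneg _ _ _)
  rcases lt_or_ge (t * r) m with hm | hm
  · rw [T_eq_zero hm, T_eq_zero (Nat.lt_succ_of_lt hm), mul_zero, mul_zero]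
  obtain ⟨s, rfl⟩ : ∃ s, t = s + 1 := ⟨t - 1, by omega⟩
  have hmR : (m : ℝ) ≤ ((s : ℝ) + 1) * r := by exact_mod_cast hm
  have e1 : (((s + 1 : ℕ) : ℝ) * r - m) ^ 2 * T r (s + 1) m =
      (((s : ℝ) + 1) * r - m) * ((((s : ℝ) + 1) * r - m) * T r (s + 1) m) := by
    push_cast
    ring
  rw [e1, ← AC_D, ← AC_E]
  have key : ((Lp r) ^ s * (Lp r).derivative).coeff m ≤
      (((s : ℝ) + 1) * r - m) * ((Lp r) ^ s * AC_A r).coeff m := by
    rw [Polynomial.coeff_mul, Polynomial.coeff_mul, Finset.mul_sum]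
    refine Finset.sum_le_sum fun p hp => ?_
    rw [HasAntidiagonal.mem_antidiagonal] at hp
    rw [AC_cd, AC_cA]
    have h0 : 0 ≤ ((Lp r) ^ s).coeff p.1 := T_nonneg r s p.1
    rcases lt_or_ge (s * r) p.1 with h1 | h1
    · have h2 : ((Lp r) ^ s).coeff p.1 = 0 := T_eq_zero h1
      rw [h2]
      simp
    rcases lt_or_ge r p.2 with h3 | h3
    · have h4 : ell r p.2 = 0 := by
        unfold ell
        rw [Nat.choose_eq_zero_of_lt h3]
        simp
      rw [h4]
      simp
    have h5 : (p.2 : ℝ) ≤ r := by exact_mod_cast h3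
    have h6 : (p.1 : ℝ) ≤ (s : ℝ) * r := by exact_mod_cast h1
    have h7 : (p.1 : ℝ) + p.2 = m := by exact_mod_cast hp
    have h8 : (r : ℝ) - p.2 ≤ ((s : ℝ) + 1) * r - m := by linarith
    have h9 : 0 ≤ ((r : ℝ) - p.2) * ell r p.2 := mul_nonneg (by linarith) (ell_nonneg _ _)
    calc ((Lp r) ^ s).coeff p.1 * (((r : ℝ) - p.2) ^ 2 * ell r p.2)
        = ((r : ℝ) - p.2) * (((Lp r) ^ s).coeff p.1 * (((r : ℝ) - p.2) * ell r p.2)) := by ring
      _ ≤ (((s : ℝ) + 1) * r - m) * (((Lp r) ^ s).coeff p.1 * (((r : ℝ) - p.2) * ell r p.2)) :=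
          mul_le_mul_of_nonneg_right h8 (mul_nonneg h0 h9)
  have hs : (0 : ℝ) ≤ (s : ℝ) + 1 := by positivity
  have := mul_le_mul_of_nonneg_left key hs
  refine this.trans (le_of_eq ?_)
  ring

/-- The mean number of holes of `q K_{r,r}`. -/
theorem hol_P {r q N : ℕ} {s : Multiset ℝ} (hs : Nn s) (hL : Lp r = rp s)
    (hc : Multiset.card s = r) (hr : 1 ≤ r) (hN1 : 1 ≤ N) (hN : N ≤ q * r)
    (h6 : q * r ≤ 6 * N) (hqm : q ≤ 4 * (q * r - N + 1) ^ 2) {x : ℝ}
    (hx : x = T r q (N - 1) / T r q N) :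
    hol (q • s) x ≤ 5 * ((q : ℝ) * r - N + 1) ^ 2 := by
  have hx0 : 0 < x := LB_x hN hx
  have e1 : hol (q • s) x = q * ((r : ℝ) - mean s x) := by
    rw [hol_eq (Nn_nsmul hs q) hx0.le, Multiset.card_nsmul, mean_nsmul, hc]
    push_cast
    ring
  obtain ⟨h, hh⟩ : ∃ h : ℝ, h = (r : ℝ) - mean s x := ⟨_, rfl⟩
  have hh0 : 0 ≤ h := by
    have := hol_nonneg hs hx0.le
    rw [hol_eq hs hx0.le, hc] at this
    rw [hh]
    exact this
  have hid := block_id hs hL hx0
  rw [← hh] at hid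
  have hvar := var_nonneg hs hx0.le
  have hxh : x * h ^ 2 ≤ r := by
    have h1 : mean s x ≤ r := by linarith
    nlinarith [mul_nonneg hx0.le hvar]
  have hTN : 0 < T r q N := T_pos hN
  have hTN1 : 0 < T r q (N - 1) := T_pos (by omega)
  have hsq := T_sq r q (N - 1)
  rw [Nat.sub_add_cancel hN1] at hsq
  have h2 : ((N - 1 : ℕ) : ℝ) = (N : ℝ) - 1 := by
    rw [Nat.cast_sub hN1]
    push_cast
    ring
  rw [h2] at hsq
  obtain ⟨M, hM⟩ : ∃ M : ℝ, M = (q : ℝ) * r - N + 1 := ⟨_, rfl⟩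
  have hNR : (N : ℝ) ≤ (q : ℝ) * r := by exact_mod_cast hN
  have hM1 : 1 ≤ M := by rw [hM]; linarith
  have e3 : (q : ℝ) * r - (N - 1) = M := by rw [hM]; ring
  have e4 : (N : ℝ) - 1 + 1 = N := by ring
  rw [e3, e4] at hsq
  have hNx : (N : ℝ) ≤ M ^ 2 * x := by
    rw [hx, ← mul_div_assoc, le_div_iff₀ hTN]
    exact hsq
  have hqM : (q : ℝ) ≤ 4 * M ^ 2 := by
    have h3 : ((q * r - N + 1 : ℕ) : ℝ) = M := by
      rw [hM]
      push_cast [Nat.cast_sub hN]
      ring
    have h4 : (q : ℝ) ≤ 4 * ((q * r - N + 1 : ℕ) : ℝ) ^ 2 := by exact_mod_cast hqm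
    rwa [h3] at h4
  have h6R : (q : ℝ) * r ≤ 6 * N := by exact_mod_cast h6
  have hN0 : (0 : ℝ) < N := by exact_mod_cast hN1
  have hq0 : (0 : ℝ) ≤ q := Nat.cast_nonneg q
  have hr0 : (0 : ℝ) ≤ r := Nat.cast_nonneg r
  -- `N h^2 ≤ M^2 x h^2 ≤ M^2 r`
  have k1 : (N : ℝ) * h ^ 2 ≤ M ^ 2 * r := by
    calc (N : ℝ) * h ^ 2 ≤ (M ^ 2 * x) * h ^ 2 := mul_le_mul_of_nonneg_right hNx (sq_nonneg h)
      _ = M ^ 2 * (x * h ^ 2) := by ring
      _ ≤ M ^ 2 * r := mul_le_mul_of_nonneg_left hxh (sq_nonneg M)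
  have k2 : (N : ℝ) * (q * h) ^ 2 ≤ N * (5 * M ^ 2) ^ 2 := by
    calc (N : ℝ) * (q * h) ^ 2 = q ^ 2 * (N * h ^ 2) := by ring
      _ ≤ q ^ 2 * (M ^ 2 * r) := mul_le_mul_of_nonneg_left k1 (sq_nonneg _)
      _ = (q * M ^ 2) * (q * r) := by ring
      _ ≤ (q * M ^ 2) * (6 * N) := mul_le_mul_of_nonneg_left h6R (by positivity)
      _ = (6 * N * M ^ 2) * q := by ring
      _ ≤ (6 * N * M ^ 2) * (4 * M ^ 2) := mul_le_mul_of_nonneg_left hqM (by positivity)
      _ ≤ N * (5 * M ^ 2) ^ 2 := by nlinarith [mul_nonneg hN0.le (sq_nonneg (M ^ 2))]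
  have k3 : (q * h) ^ 2 ≤ (5 * M ^ 2) ^ 2 := le_of_mul_le_mul_left k2 hN0
  have k4 : q * h ≤ 5 * M ^ 2 := by
    exact le_of_sq_le_sq k3 (by positivity)
  rw [e1, ← hh, ← hM]
  exact k4

private theorem AC_up {s : Multiset ℝ} (hs : Nn s) {x : ℝ} (hx : 0 < x) :
    Real.log ((rp s).eval x) - Real.log ((rp s).eval (x / 2)) ≤
      Multiset.card s * Real.log 2 - hol s x / 2 := by
  induction s using Multiset.induction_on with
  | empty =>
    rw [hol_zero, rp_eval, rp_eval]
    simp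
  | cons μ s ih =>
    obtain ⟨hμ, hs'⟩ := Nn_cons hs
    have h1 : 0 ≤ μ * x := by positivity
    have h1' : μ * (x / 2) = μ * x / 2 := by ring
    have ha : ∀ y, (rp (μ ::ₘ s)).eval y = (1 + μ * y) * (rp s).eval y := by
      intro y
      rw [rp_eval, rp_eval, Multiset.map_cons, Multiset.prod_cons]
    have h2 : 0 < (rp s).eval x := lt_of_lt_of_le one_pos (one_le_rp hs' hx.le)
    have h3 : 0 < (rp s).eval (x / 2) := lt_of_lt_of_le one_pos (one_le_rp hs' (by linarith))
    rw [ha, ha, Real.log_mul (by positivity) h2.ne', Real.log_mul (by positivity) h3.ne',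
      hol_cons, Multiset.card_cons, h1']
    have h4 : Real.log (1 + μ * x) - Real.log (1 + μ * x / 2) ≤
        Real.log 2 - 1 / (1 + μ * x) / 2 := by
      have e : Real.log (1 + μ * x) - Real.log (1 + μ * x / 2) =
          Real.log 2 + Real.log (1 - 1 / (2 + μ * x)) := by
        rw [← Real.log_div (by positivity) (by positivity), ← Real.log_mul (by norm_num) (by
          have : 1 / (2 + μ * x) < 1 := by
            rw [div_lt_one (by positivity)]
            linarith
          linarith)]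
        congr 1
        field_simp
        ring
      rw [e]
      have h5 : 1 / (2 + μ * x) < 1 := by
        rw [div_lt_one (by positivity)]
        linarith
      have h6 := Real.log_le_sub_one_of_pos (show 0 < 1 - 1 / (2 + μ * x) by linarith)
      have h7 : 1 / (1 + μ * x) / 2 ≤ 1 / (2 + μ * x) := by
        rw [div_div, div_le_div_iff₀ (by positivity) (by positivity)]
        linarith
      linarith
    have h8 := ih hs'
    push_cast
    linarith

private theorem AC_low {s : Multiset ℝ} (hs : Nn s) {x : ℝ} (hx : 0 < x) :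
    Multiset.card s * Real.log 2 - hol s x ≤
      Real.log ((rp s).eval x) - Real.log ((rp s).eval (x / 2)) := by
  induction s using Multiset.induction_on with
  | empty =>
    rw [hol_zero, rp_eval, rp_eval]
    simp
  | cons μ s ih =>
    obtain ⟨hμ, hs'⟩ := Nn_cons hs
    have h1 : 0 ≤ μ * x := by positivity
    have h1' : μ * (x / 2) = μ * x / 2 := by ring
    have ha : ∀ y, (rp (μ ::ₘ s)).eval y = (1 + μ * y) * (rp s).eval y := by
      intro y
      rw [rp_eval, rp_eval, Multiset.map_cons, Multiset.prod_cons]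
    have h2 : 0 < (rp s).eval x := lt_of_lt_of_le one_pos (one_le_rp hs' hx.le)
    have h3 : 0 < (rp s).eval (x / 2) := lt_of_lt_of_le one_pos (one_le_rp hs' (by linarith))
    rw [ha, ha, Real.log_mul (by positivity) h2.ne', Real.log_mul (by positivity) h3.ne',
      hol_cons, Multiset.card_cons, h1']
    have h4 : Real.log 2 - 1 / (1 + μ * x) ≤
        Real.log (1 + μ * x) - Real.log (1 + μ * x / 2) := by
      have e : Real.log (1 + μ * x) - Real.log (1 + μ * x / 2) =
          Real.log 2 - Real.log (1 + 1 / (1 + μ * x)) := by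
        rw [← Real.log_div (by positivity) (by positivity), ← Real.log_div (by norm_num)
          (by positivity)]
        congr 1
        field_simp
        ring
      rw [e]
      have h6 := Real.log_le_sub_one_of_pos (show 0 < 1 + 1 / (1 + μ * x) by positivity)
      linarith
    have h8 := ih hs'
    push_cast
    linarith

/-- The number of holes of `Q` against the number of holes of `P`. -/
theorem hol_Q {sP sQ : Multiset ℝ} (hP : Nn sP) (hQ : Nn sQ)
    (hc : Multiset.card sP = Multiset.card sQ) {x : ℝ} (hx : 0 < x)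
    (hle : (rp sQ).eval (x / 2) ≤ (rp sP).eval (x / 2)) :
    hol sQ x ≤ 2 * hol sP x +
      2 * (Real.log ((rp sP).eval x) - Real.log ((rp sQ).eval x)) := by
  have h1 := AC_up hQ hx
  have h2 := AC_low hP hx
  rw [hc] at h2
  have h3 : Real.log ((rp sQ).eval (x / 2)) ≤ Real.log ((rp sP).eval (x / 2)) :=
    Real.log_le_log (lt_of_lt_of_le one_pos (one_le_rp hQ (by linarith))) hle
  linarith

/-- Padding with zeros. -/
theorem pad {s : Multiset ℝ} (hs : Nn s) {n : ℕ} (hn : Multiset.card s ≤ n) :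
    ∃ s' : Multiset ℝ, Nn s' ∧ rp s' = rp s ∧ Multiset.card s' = n := by
  refine ⟨s + Multiset.replicate (n - Multiset.card s) 0, ?_, ?_, ?_⟩
  · intro μ hμ
    rcases Multiset.mem_add.1 hμ with h | h
    · exact hs μ h
    · rw [Multiset.eq_of_mem_replicate h]
  · rw [rp_add]
    have h : rp (Multiset.replicate (n - Multiset.card s) 0) = 1 := by
      unfold rp
      rw [Multiset.map_replicate, Multiset.prod_replicate]
      simp
    rw [h, mul_one]
  · rw [Multiset.card_add, Multiset.card_replicate]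
    omega

end Pool.Agent.Lib.MP_eeed5c_coA
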