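import Pool.Agent.Lib.MP_eeed5c_co_A.AB
import Pool.Agent.Lib.MP_eeed5c_co_A.AC
import Pool.Agent.Lib.MP_eeed5c_co_M.MB

/-!
# The middle range without the degree

`main_abs`: if the gap `F(x) = q log L_r(x) - log mp G (x)` at the saddle point `x` of level `N` is at
least `m^(-C)`, `m = q r - N`, then the inequality holds at level `N` once `m` is large depending on
`C` only (and `q ≤ 4 (m+1)^2`, the other case being `main_top` of the library U).
-/

set_option autoImplicit false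

namespace Pool.Agent.Lib.MP_eeed5c_coA

open Finset Pool.Agent.Lib.MP_eeed5c_co Pool.Agent.Lib.MP_eeed5c_coT Pool.Agent.Lib.MP_eeed5c_coM

private theorem AD_mono {sP sQ : Multiset ℝ} (hP : Nn sP) (hQ : Nn sQ)
    (hmean : ∀ y, 0 < y → mean sQ y ≤ mean sP y) {y x : ℝ} (hy : 0 < y) (hyx : y ≤ x) :
    Real.log ((rp sP).eval y) - Real.log ((rp sQ).eval y) ≤
      Real.log ((rp sP).eval x) - Real.log ((rp sQ).eval x) := by
  have hx : 0 < x := lt_of_lt_of_le hy hyx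
  have hd : ∀ u : ℝ, HasDerivAt (fun u : ℝ => Real.log ((rp sP).eval (Real.exp u)) -
      Real.log ((rp sQ).eval (Real.exp u))) (mean sP (Real.exp u) - mean sQ (Real.exp u)) u :=
    fun u => (hasDeriv_log hP u).sub (hasDeriv_log hQ u)
  have hm : Monotone (fun u : ℝ => Real.log ((rp sP).eval (Real.exp u)) -
      Real.log ((rp sQ).eval (Real.exp u))) := by
    apply monotone_of_deriv_nonneg (fun u => (hd u).differentiableAt)
    intro u
    rw [(hd u).deriv]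
    linarith [hmean (Real.exp u) (Real.exp_pos u)]
  have h := hm (Real.log_le_log hy hyx)
  simp only [Real.exp_log hy, Real.exp_log hx] at h
  exact h

private theorem AD_u {a δ : ℝ} (ha : 0 ≤ a) (ha1 : a ≤ 1) (h : a ≤ δ) :
    a / 2 ≤ 1 - Real.exp (-δ) := by
  have h1 : Real.exp (-δ) ≤ Real.exp (-a) := Real.exp_le_exp.2 (by linarith)
  have h2 : 1 + a ≤ Real.exp a := by linarith [Real.add_one_le_exp a]
  have h3 : Real.exp (-a) ≤ 1 / (1 + a) := by
    rw [Real.exp_neg, inv_eq_one_div]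
    exact one_div_le_one_div_of_le (by linarith) h2
  have h4 : 1 / (1 + a) ≤ 1 - a / 2 := by
    rw [div_le_iff₀ (by linarith)]
    nlinarith
  linarith

/-- The numerical estimate of the bound `B`. -/
private theorem AD_num {m δ L1 H : ℝ} {C : ℕ} (hm : 1 ≤ m) (hδ : 1 / m ^ C ≤ δ)
    (hL : 28 / 3 + ((C : ℝ) + 2) * Real.log m ≤ L1) (hH : H ≤ 5 * (m + 1) ^ 2) :
    6 * H + 4 * δ ≤ δ * Real.exp L1 := by
  have hm0 : 0 < m := by linarith
  have hmC : 0 < m ^ C := pow_pos hm0 C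
  have hδ0 : 0 < δ := lt_of_lt_of_le (by positivity) hδ
  have h1 : Real.exp 5 * m ^ (C + 2) ≤ Real.exp L1 := by
    have e : Real.exp 5 * m ^ (C + 2) = Real.exp (5 + ((C : ℝ) + 2) * Real.log m) := by
      rw [Real.exp_add]
      congr 1
      have e2 : ((C : ℝ) + 2) * Real.log m = ((C + 2 : ℕ) : ℝ) * Real.log m := by push_cast; ring
      rw [e2, Real.exp_nat_mul, Real.exp_log hm0]
    rw [e]
    exact Real.exp_le_exp.2 (by linarith)
  have h2 : (124 : ℝ) ≤ Real.exp 5 := by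
    have e : Real.exp 5 = Real.exp 1 ^ 5 := by
      rw [← Real.exp_nat_mul]
      norm_num
    have h3 : (2.7 : ℝ) ≤ Real.exp 1 := by
      have := Real.exp_one_gt_d9
      linarith
    rw [e]
    calc (124 : ℝ) ≤ 2.7 ^ 5 := by norm_num
      _ ≤ Real.exp 1 ^ 5 := pow_le_pow_left₀ (by norm_num) h3 5
  have h3 : 124 * m ^ (C + 2) ≤ Real.exp L1 :=
    (mul_le_mul_of_nonneg_right h2 (by positivity)).trans h1
  have h4 : 124 * m ^ 2 ≤ δ * (124 * m ^ (C + 2)) := by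
    have h5 : 1 ≤ δ * m ^ C := by
      rw [div_le_iff₀ hmC] at hδ
      exact hδ
    have h6 : (124 * m ^ 2) * 1 ≤ (124 * m ^ 2) * (δ * m ^ C) :=
      mul_le_mul_of_nonneg_left h5 (by positivity)
    calc 124 * m ^ 2 = (124 * m ^ 2) * 1 := by ring
      _ ≤ (124 * m ^ 2) * (δ * m ^ C) := h6
      _ = δ * (124 * m ^ (C + 2)) := by ring
  have h4' : 120 * m ^ 2 + 4 * δ ≤ δ * Real.exp L1 := by
    have h7 : (1 : ℝ) ≤ m ^ (C + 2) := one_le_pow₀ hm
    have h8 : δ * (4 * m ^ (C + 2)) + δ * (120 * m ^ (C + 2)) ≤ δ * Real.exp L1 := by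
      have := mul_le_mul_of_nonneg_left h3 hδ0.le
      linarith
    have h9 : δ * 4 ≤ δ * (4 * m ^ (C + 2)) := mul_le_mul_of_nonneg_left (by linarith) hδ0.le
    linarith
  have h10 : 6 * H ≤ 120 * m ^ 2 := by
    have h11 : (m + 1) ^ 2 ≤ 4 * m ^ 2 := by nlinarith
    linarith
  linarith

theorem mid_abs {r q N C : ℕ} {sK sQ : Multiset ℝ} (hK : Nn sK)
    (hL : Lp r = rp sK) (hKc : Multiset.card sK = r) (hQ : Nn sQ)
    (hQc : Multiset.card sQ = q * r) (hr : 1 ≤ r) (hq : 1 ≤ q)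
    (hN1 : 1 ≤ N) (h6 : q * r ≤ 6 * N) (hNn : N < q * r)
    (hqm : q ≤ 4 * (q * r - N + 1) ^ 2)
    (hmean : ∀ y, 0 < y → mean sQ y ≤ q * mean sK y)
    (hle : ∀ y, 0 < y → (rp sQ).eval y ≤ (Lp r).eval y ^ q)
    (hgap : 1 / ((q : ℝ) * r - N) ^ C ≤ q * Real.log ((Lp r).eval (T r q (N - 1) / T r q N)) -
      Real.log ((rp sQ).eval (T r q (N - 1) / T r q N)))
    (hd : 23000000000 * (14 + 3 / 2 * ((C : ℝ) + 2) * Real.log ((q : ℝ) * r - N)) ^ 5 ≤
      (q : ℝ) * r - N) :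
    (rp sQ).coeff N ≤ T r q N := by
  have hN : N ≤ q * r := hNn.le
  have hrR : (1 : ℝ) ≤ r := by exact_mod_cast hr
  have hr0 : (0 : ℝ) < r := by linarith
  have hqR : (1 : ℝ) ≤ q := by exact_mod_cast hq
  have hP : Nn (q • sK) := Nn_nsmul hK q
  have hT : Nn (0 : Multiset ℝ) := fun μ hμ => absurd hμ (Multiset.notMem_zero μ)
  have eP : rp (q • sK) = (Lp r) ^ q := by rw [rp_nsmul, ← hL]
  have ePe : ∀ y, (rp (q • sK)).eval y = (Lp r).eval y ^ q := fun y => by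
    rw [eP, Polynomial.eval_pow]
  -- the radius
  obtain ⟨x, hx⟩ : ∃ x : ℝ, x = T r q (N - 1) / T r q N := ⟨_, rfl⟩
  rw [← hx] at hgap
  have hx0 : 0 < x := LB_x hN hx
  have hQ1 : ∀ y, 0 ≤ y → 1 ≤ (rp sQ).eval y := fun y hy => one_le_rp hQ hy
  have hP1 : ∀ y, 0 ≤ y → 1 ≤ (rp (q • sK)).eval y := fun y hy => one_le_rp hP hy
  have hle' : ∀ y, 0 < y → (rp sQ).eval y ≤ (rp (q • sK)).eval y := fun y hy => by
    rw [ePe]; exact hle y hy
  have hmean' : ∀ y, 0 < y → mean sQ y ≤ mean (q • sK) y := fun y hy => by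
    rw [mean_nsmul]; exact hmean y hy
  -- the gap
  obtain ⟨d, hdd⟩ : ∃ d : ℝ, d = (q : ℝ) * r - N := ⟨_, rfl⟩
  rw [← hdd] at hgap hd
  have hd1 : 1 ≤ d := by
    have h1 : ((N + 1 : ℕ) : ℝ) ≤ ((q * r : ℕ) : ℝ) := by exact_mod_cast hNn
    push_cast at h1
    rw [hdd]
    linarith
  obtain ⟨δ, hδ⟩ : ∃ δ : ℝ, δ = Real.log ((rp (q • sK)).eval x) - Real.log ((rp sQ).eval x) :=
    ⟨_, rfl⟩
  have hδge : 1 / d ^ C ≤ δ := by
    rw [hδ, ePe, Real.log_pow]
    exact hgap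
  have hdC : 0 < d ^ C := pow_pos (by linarith) C
  have hδ0 : 0 < δ := lt_of_lt_of_le (by positivity) hδge
  have hlogd : 0 ≤ Real.log d := Real.log_nonneg hd1
  -- the logarithmic parameters
  obtain ⟨L1, hL1e⟩ : ∃ L1 : ℝ, L1 = 28 / 3 + ((C : ℝ) + 2) * Real.log d := ⟨_, rfl⟩
  obtain ⟨L, hLe⟩ : ∃ L : ℝ, L = 14 + 3 / 2 * ((C : ℝ) + 2) * Real.log d := ⟨_, rfl⟩
  have hLL1 : L = 3 / 2 * L1 := by rw [hLe, hL1e]; ring
  rw [← hLe] at hd
  have hC0 : (0 : ℝ) ≤ C := Nat.cast_nonneg C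
  have hL1ge : 28 / 3 ≤ L1 := by
    rw [hL1e]
    have : 0 ≤ ((C : ℝ) + 2) * Real.log d := by positivity
    linarith
  have hL14 : 14 ≤ L := by rw [hLL1]; linarith
  have hcard : Multiset.card (q • sK) = Multiset.card sQ := by
    rw [Multiset.card_nsmul, hKc, hQc]
  have hHP : hol (q • sK) x ≤ 5 * (d + 1) ^ 2 := by
    rw [hdd]
    exact hol_P hK hL hKc hr hN1 hN h6 hqm hx
  have hHQ := hol_Q hP hQ hcard hx0 (hle' (x / 2) (by linarith))
  rw [← hδ] at hHQ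
  have hB : 2 * hol (q • sK) x + 2 * hol sQ x ≤ δ * Real.exp L1 := by
    have h1 := AD_num (H := hol (q • sK) x) hd1 hδge hL1e.ge hHP
    linarith
  have hLB : L1 = Real.log (δ * Real.exp L1 / δ) := by
    rw [mul_div_cancel_left₀ _ hδ0.ne', Real.log_exp]
  have hmono : ∀ y, 0 < y → y ≤ x →
      0 ≤ Real.log ((rp (q • sK)).eval y) - Real.log ((rp sQ).eval y) ∧
      Real.log ((rp (q • sK)).eval y) - Real.log ((rp sQ).eval y) ≤ δ :=
    fun y hy hyx => ⟨sub_nonneg.2 (Real.log_le_log (by linarith [hQ1 y hy.le]) (hle' y hy)), by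
      rw [hδ]; exact AD_mono hP hQ hmean' hy hyx⟩
  have hE : ∀ t : ℝ, 16 * L ^ 2 * |t| ≤ 1 →
      ‖lg (q • sK) (pt x t) - lg sQ (pt x t) - δ‖ ≤ 9 * L * √|t| * δ := by
    intro t ht
    have h1 : 32 * L1 ^ 2 * |t| ≤ 1 := by
      refine le_trans ?_ ht
      have h2 : 32 * L1 ^ 2 ≤ 16 * L ^ 2 := by
        rw [hLL1]
        nlinarith [sq_nonneg L1]
      exact mul_le_mul_of_nonneg_right h2 (abs_nonneg t)
    have h3 := circle_close2 hP hQ hcard hx0 hδ hδ0 hmono hB hLB (by linarith) h1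
    refine h3.trans ?_
    have h4 : 13 * L1 ≤ 9 * L := by rw [hLL1]; linarith
    have h5 : 0 ≤ √|t| * δ := mul_nonneg (Real.sqrt_nonneg _) hδ0.le
    have h6 := mul_le_mul_of_nonneg_right h4 h5
    calc 13 * L1 * √|t| * δ = 13 * L1 * (√|t| * δ) := by ring
      _ ≤ 9 * L * (√|t| * δ) := h6
      _ = 9 * L * √|t| * δ := by ring
  -- the variance
  have hV : var (q • sK + 0) x = q * vb r x := by
    rw [add_zero, var_nsmul, vb_eq hK hL hx0]
  have hL5 : (1 : ℝ) ≤ L ^ 5 := one_le_pow₀ (by linarith)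
  have hd15 : 15 ≤ d := by linarith
  have h6R : (q : ℝ) * r ≤ 6 * N := by exact_mod_cast h6
  have hVlow : d / 80 ≤ var (q • sK + 0) x := by
    have := V_low (b := d / 5) hK hL hKc.le hr hN1 hN hx (by linarith) (by
      rw [hdd]; linarith) (by rw [hdd]; linarith)
    rw [hV]; linarith
  obtain ⟨V, hVV⟩ : ∃ V : ℝ, V = var (q • sK + 0) x := ⟨_, rfl⟩
  rw [← hVV] at hVlow hV
  have hV0 : 0 < V := by linarith
  obtain ⟨S, hS⟩ : ∃ S : ℝ, S = √(√V) := ⟨_, rfl⟩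
  have hS0 : 0 < S := by rw [hS]; exact Real.sqrt_pos.2 (Real.sqrt_pos.2 hV0)
  have hS4 : S ^ 4 = V := by
    have h1 : S ^ 2 = √V := by rw [hS]; exact Real.sq_sqrt (Real.sqrt_nonneg _)
    have h2 : S ^ 4 = (S ^ 2) ^ 2 := by ring
    rw [h2, h1, Real.sq_sqrt hV0.le]
  have key := coeff_diff2 hP hQ hT hx0 hδ0 hmean' hle' hE (by linarith) hS0
    (by rw [hS4, hVV]) N
  have hA : 0 < (Lp r).eval x ^ q := by
    have : (1 : ℝ) ≤ (Lp r).eval x := by rw [hL]; exact one_le_rp hK hx0.le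
    positivity
  have hp := low_T (q := q) hr hN1 hN hx
  rw [← hV] at hp
  obtain ⟨ρ, hρ⟩ : ∃ ρ : ℝ, ρ = √(d ^ C) := ⟨_, rfl⟩
  have hρ2 : ρ ^ 2 = d ^ C := by rw [hρ]; exact Real.sq_sqrt hdC.le
  have hρ0 : 0 ≤ ρ := by rw [hρ]; exact Real.sqrt_nonneg _
  have hdC1 : 1 ≤ d ^ C := one_le_pow₀ hd1
  have hρ1 : 1 ≤ ρ := by
    by_contra hcon
    push Not at hcon
    have : ρ ^ 2 < 1 := by nlinarith
    linarith
  have hlogρ : Real.log ρ = C / 2 * Real.log d := by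
    have h1 : Real.log (ρ ^ 2) = C * Real.log d := by rw [hρ2, Real.log_pow]
    rw [Real.log_pow] at h1
    push_cast at h1
    linarith
  have hu : 1 / (1200000 * ρ ^ 2) ≤ 1 - Real.exp (-δ) := by
    have h2 : 1 / d ^ C ≤ 1 := by
      rw [div_le_one hdC]
      exact hdC1
    have h3 := AD_u (by positivity) h2 hδge
    have h4 : 1 / (1200000 * ρ ^ 2) ≤ 1 / d ^ C / 2 := by
      rw [hρ2, div_div, div_le_div_iff₀ (by positivity) (by positivity)]
      linarith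
    linarith
  have hL3 : 14 + 3 * Real.log ρ ≤ L := by
    rw [hlogρ, hLe]
    have : 0 ≤ 3 * Real.log d := by linarith
    linarith
  have main := num_main (r := ρ) (V := V) (d := d) (L := L) (S := S)
    (A := (Lp r).eval x ^ q) (p := T r q N * x ^ N) (u := 1 - Real.exp (-δ)) hρ1
    hL3 hVlow hd hS0 hS4 hA hp hu
  have eS0 : rp (q • sK + 0) = (Lp r) ^ q := by rw [add_zero, eP]
  have eS : (rp (q • sK + 0)).coeff N = T r q N := by rw [eS0]; rfl
  have eSe : (rp (q • sK + 0)).eval x = (Lp r).eval x ^ q := by rw [eS0, Polynomial.eval_pow]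
  rw [eS, eSe, ← hVV, add_zero] at key
  have fin : 0 ≤ 2 * Real.pi * ((T r q N - (rp sQ).coeff N) * x ^ N) := by
    refine le_trans ?_ key
    refine main.trans (le_of_eq ?_)
    ring
  have hpi := Real.pi_pos
  have hxN : 0 < x ^ N := pow_pos hx0 N
  by_contra hcon
  push Not at hcon
  have h1 : (T r q N - (rp sQ).coeff N) * x ^ N < 0 :=
    mul_neg_of_neg_of_pos (by linarith) hxN
  have h2 : 2 * Real.pi * ((T r q N - (rp sQ).coeff N) * x ^ N) < 0 :=
    mul_neg_of_pos_of_neg (by positivity) h1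
  linarith

theorem Far_zero {V : Type*} [Fintype V] (G : SimpleGraph V) : Far G 0 := by
  classical
  intro v u _
  unfold loc tri
  positivity

theorem eval_le {q r : ℕ} {V : Type} [Fintype V] {G : SimpleGraph V} (hr : 1 ≤ r)
    (hV : Fintype.card V = 2 * (q * r)) (hreg : Reg G r) {y : ℝ} (hy : 0 < y) :
    (mp G).eval y ≤ (Lp r).eval y ^ q := by
  have h := gap hr hV hreg (le_refl (0 : ℝ)) (Far_zero G) (x0 := min y 1) (lt_min hy one_pos)
    (min_le_right _ _) (min_le_left y 1)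
  have e : Real.exp (-(0 * (q : ℝ) * (r : ℝ) ^ 2 * (min y 1) ^ 4 /
      (8 * (1 + 2 * (min y 1) * r) ^ 8))) = 1 := by
    rw [zero_mul, zero_mul, zero_mul, zero_div, neg_zero, Real.exp_zero]
  rw [e, one_mul] at h
  exact h

/-- The middle range: a gap `m^(-C)` at the saddle point of level `k` is enough. -/
theorem main_abs {q r k C : ℕ} {V : Type} [Fintype V] {G : SimpleGraph V}
    (hV : Fintype.card V = 2 * (q * r)) (hreg : Reg G r) (hr : 1 ≤ r) (hq : 1 ≤ q)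
    (hk1 : 1 ≤ k) (h6 : q * r ≤ 6 * k) (hkn : k < q * r)
    (hqm : q ≤ 4 * (q * r - k + 1) ^ 2)
    (hgap : 1 / ((q : ℝ) * r - k) ^ C ≤ q * Real.log ((Lp r).eval (T r q (k - 1) / T r q k)) -
      Real.log ((mp G).eval (T r q (k - 1) / T r q k)))
    (hd : 23000000000 * (14 + 3 / 2 * ((C : ℝ) + 2) * Real.log ((q : ℝ) * r - k)) ^ 5 ≤
      (q : ℝ) * r - k) :
    (mats G k).card ≤ (mats (KK q r) k).card := by
  have hcard : ((mats G k).card : ℝ) ≤ (mats (KK q r) k).card := by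
    rw [card_mats_KK, ← mp_coeff]
    obtain ⟨sQ0, hQ0, hQe0, hQc0⟩ := mp_rp G hV
    obtain ⟨sK0, hK0, hL0, hKc0⟩ := Lp_rp r
    obtain ⟨sQ, hQ, hQe, hQc⟩ := pad hQ0 hQc0
    obtain ⟨sK, hK, hLe, hKc⟩ := pad hK0 hKc0
    have hL : Lp r = rp sK := by rw [hLe, hL0]
    have hG : mp G = rp sQ := by rw [hQe, hQe0]
    rw [hG]
    rw [hG] at hgap
    refine mid_abs hK hL hKc hQ hQc hr hq hk1 h6 hkn hqm
      (fun y hy => MB_mean hr hV hreg hK hQ hL hG hy) (fun y hy => ?_) hgap hd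
    rw [← hG]
    exact eval_le hr hV hreg hy
  exact_mod_cast hcard

end Pool.Agent.Lib.MP_eeed5c_coA
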